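import Pool.Agent.L0h7.FO.Defs

/-! # The class of Coxeter matrices obtained by foldings and splittings; forests -/

set_option autoImplicit false

namespace Pool.Agent.L0h7.FO

open Pool.Agent.TH107.RF

/-- The Coxeter matrices which are obtained from matrices of rank at most one by foldings and by
splittings into classes with all labels between different classes two or infinity. -/
inductive Foldable : (S : Type) → [Fintype S] → [DecidableEq S] → CoxeterMatrix S → Prop
  | point (S : Type) [Fintype S] [DecidableEq S] (M : CoxeterMatrix S) (h : Subsingleton S) :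
      Foldable S M
  | fold (S C : Type) [Fintype S] [DecidableEq S] [Fintype C] [DecidableEq C]
      (M : CoxeterMatrix S) (M' : CoxeterMatrix C) (κ : S → C) (m : ℕ) (hR : RankTwo M)
      (hF : Folds M M' κ m) (hC : Foldable C M') : Foldable S M
  | split (S C : Type) [Fintype S] [DecidableEq S] [DecidableEq C]
      (M : CoxeterMatrix S) (κ : S → C) (hR : RankTwo M)
      (hout : ∀ s t, κ s ≠ κ t → M s t = 0 ∨ M s t = 2)
      (hcl : ∀ c, Foldable (Cls κ c) (Mc κ M c)) : Foldable S M

/-- the Artin groups of the class are locally indicable -/
theorem li_foldable (hF : S_FOLD) {S : Type} [Fintype S] [DecidableEq S] {M : CoxeterMatrix S}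
    (h : Foldable S M) : LI (Art M) := by
  induction h with
  | point S M h =>
    refine li_single (m := 3) (fun i j k hik _ _ => absurd (Subsingleton.elim i k) hik) le_rfl
      (fun s t hst _ => absurd (Subsingleton.elim s t) hst)
  | fold S C M M' κ m hR hFo _ ih => exact hF hR hFo ih
  | split S C M κ hR hout _ ih => exact li_classes hR hout ih

/-- A forest, ordered so that every generator has a finite label with at most one earlier
generator. -/
def Forest {n : ℕ} (M : CoxeterMatrix (Fin n)) : Prop :=
  ∀ i j k : Fin n, j < i → k < i → M i j ≠ 0 → M i k ≠ 0 → j = k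

/-- there is no triangle with finite labels in a forest -/
theorem forest_rank {n : ℕ} {M : CoxeterMatrix (Fin n)} (h : Forest M) : RankTwo M := by
  intro i j k hik hij hjk
  by_contra h0
  have hij' : i ≠ j := by
    rintro rfl
    rw [M.diagonal] at hij
    omega
  have hjk' : j ≠ k := by
    rintro rfl
    rw [M.diagonal] at hjk
    omega
  have a1 : M i j ≠ 0 := by omega
  have a2 : M j k ≠ 0 := by omega
  have a3 : M j i ≠ 0 := by rw [M.symmetric]; exact a1
  have a4 : M k j ≠ 0 := by rw [M.symmetric]; exact a2
  have a5 : M k i ≠ 0 := by rw [M.symmetric]; exact h0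
  rcases lt_trichotomy i j with h1 | h1 | h1
  · rcases lt_trichotomy j k with h2 | h2 | h2
    · exact hij' (h k i j (h1.trans h2) h2 a5 a4)
    · exact hjk' h2
    · exact hik (h j i k h1 h2 a3 a2)
  · exact hij' h1
  · rcases lt_trichotomy i k with h2 | h2 | h2
    · exact hij' (h k i j h2 (h1.trans h2) a5 a4)
    · exact hik h2
    · exact hjk' (h i j k h1 h2 a1 h0)

/-- the restriction to the first `n` generators -/
def res {n : ℕ} (M : CoxeterMatrix (Fin (n + 1))) : CoxeterMatrix (Fin n) where
  M i j := M i.castSucc j.castSucc
  isSymm := by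
    ext i j
    exact M.symmetric j.castSucc i.castSucc
  diagonal i := M.diagonal i.castSucc
  off_diagonal i j h := M.off_diagonal i.castSucc j.castSucc
    (fun h' => h (Fin.castSucc_injective n h'))

theorem res_apply {n : ℕ} (M : CoxeterMatrix (Fin (n + 1))) (i j : Fin n) :
    res M i j = M i.castSucc j.castSucc := rfl

theorem res_forest {n : ℕ} {M : CoxeterMatrix (Fin (n + 1))} (h : Forest M) : Forest (res M) := by
  intro i j k hj hk h1 h2
  exact Fin.castSucc_injective n (h i.castSucc j.castSucc k.castSucc
    (Fin.castSucc_lt_castSucc_iff.2 hj) (Fin.castSucc_lt_castSucc_iff.2 hk) h1 h2)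

/-- fold the last generator onto `j` -/
theorem folds_last {n : ℕ} {M : CoxeterMatrix (Fin (n + 1))} (j : Fin n)
    (hj : ∀ i : Fin n, i ≠ j → M (Fin.last n) i.castSucc = 0) :
    Folds M (res M) (Fin.lastCases j id : Fin (n + 1) → Fin n) (M (Fin.last n) j.castSucc) := by
  have hj' : ∀ i : Fin n, i ≠ j → M i.castSucc (Fin.last n) = 0 := fun i hi => by
    rw [M.symmetric]; exact hj i hi
  constructor
  · intro s t
    refine Fin.lastCases ?_ (fun s => ?_) s
    · refine Fin.lastCases ?_ (fun t => ?_) t
      · intro h; exact absurd rfl h
      · intro _ h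
        rw [Fin.lastCases_last, Fin.lastCases_castSucc] at h
        right
        rw [h]; rfl
    · refine Fin.lastCases ?_ (fun t => ?_) t
      · intro _ h
        rw [Fin.lastCases_last, Fin.lastCases_castSucc] at h
        right
        rw [← h, M.symmetric]; rfl
      · intro hst h
        rw [Fin.lastCases_castSucc, Fin.lastCases_castSucc] at h
        exact absurd (congrArg Fin.castSucc h) hst
  · intro s t
    refine Fin.lastCases ?_ (fun s => ?_) s
    · refine Fin.lastCases ?_ (fun t => ?_) t
      · intro h; exact absurd rfl h
      · intro h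
        rw [Fin.lastCases_last, Fin.lastCases_castSucc] at h
        exact Or.inl (hj t (fun h' => h h'.symm))
    · refine Fin.lastCases ?_ (fun t => ?_) t
      · intro h
        rw [Fin.lastCases_last, Fin.lastCases_castSucc] at h
        exact Or.inl (hj' s h)
      · intro _
        rw [Fin.lastCases_castSucc, Fin.lastCases_castSucc]
        exact Or.inr rfl

/-- forests can be folded to a point -/
theorem forest (n : ℕ) (M : CoxeterMatrix (Fin n)) (h : Forest M) : Foldable (Fin n) M := by
  induction n with
  | zero => exact Foldable.point _ M inferInstance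
  | succ n ih =>
    by_cases hn : n = 0
    · subst hn
      exact Foldable.point _ M (inferInstanceAs (Subsingleton (Fin 1)))
    · have hR := forest_rank h
      have ih' := ih (res M) (res_forest h)
      by_cases hex : ∃ j : Fin n, M (Fin.last n) j.castSucc ≠ 0
      · obtain ⟨j, hj⟩ := hex
        refine Foldable.fold _ _ M (res M) _ _ hR (folds_last j fun i hi => ?_) ih'
        by_contra h0
        exact hi (Fin.castSucc_injective n (h (Fin.last n) i.castSucc j.castSucc
          (Fin.castSucc_lt_last i) (Fin.castSucc_lt_last j) h0 hj))
      · push Not at hex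
        have j : Fin n := ⟨0, Nat.pos_of_ne_zero hn⟩
        exact Foldable.fold _ _ M (res M) _ _ hR (folds_last j fun i _ => hex i) ih'

/-- matrices which fold onto a forest -/
theorem over_forest {S : Type} [Fintype S] [DecidableEq S] {M : CoxeterMatrix S} {n : ℕ}
    {M' : CoxeterMatrix (Fin n)} {κ : S → Fin n} {m : ℕ} (hR : RankTwo M)
    (hF : Folds M M' κ m) (h : Forest M') : Foldable S M :=
  Foldable.fold _ _ M M' κ m hR hF (forest n M' h)

end Pool.Agent.L0h7.FO
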