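import Pool.Agent.TH107.RF.Multi

/-! # Foldings of Coxeter matrices: the definition and the statement of module F1 -/

set_option autoImplicit false

namespace Pool.Agent.L0h7.FO

open Pool.Agent.TH107.RF

/-- `κ` folds the labelled graph of `M` onto that of `M'`: inside a class all finite labels are
`m`, between two classes all finite labels are the label of the classes. -/
structure Folds {S C : Type} (M : CoxeterMatrix S) (M' : CoxeterMatrix C) (κ : S → C) (m : ℕ) :
    Prop where
  inner : ∀ s t, s ≠ t → κ s = κ t → M s t = 0 ∨ M s t = m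
  outer : ∀ s t, κ s ≠ κ t → M s t = 0 ∨ M s t = M' (κ s) (κ t)

/-- Module F1. -/
def S_FOLD : Prop := ∀ {S C : Type} [Fintype S] [DecidableEq S] [Fintype C] [DecidableEq C]
  {M : CoxeterMatrix S} {M' : CoxeterMatrix C} {κ : S → C} {m : ℕ}, RankTwo M → Folds M M' κ m →
  LI (Art M') → LI (Art M)

end Pool.Agent.L0h7.FO
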