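import Pool.Agent.L0h90.FO.Fold
import Pool.Agent.L0h7.FO.Class

set_option autoImplicit false

/-! # Preimages of locally indicable subgroups under foldings -/

namespace Pool.Agent.L0h7.FO

open Matrix LaurentPolynomial Pool.Agent.TH107.RF Pool.Agent.TH107.RF.RFilt Pool.Agent.L0h90.FO

section
variable {S C : Type} [Fintype S] [DecidableEq S] [Fintype C] [DecidableEq C]
  {M : CoxeterMatrix S} {M' : CoxeterMatrix C} {κ : S → C} {m : ℕ}

/-- finitely generated subgroups of the kernel of a folding -/
theorem hom_of_ker (hR : RankTwo M) (h : Folds M M' κ m) {H : Subgroup (Art M)} (hH : H.FG)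
    (hne : H ≠ ⊥) (hex : ∀ g ∈ H, fold h g = 1) :
    ∃ φ : H →* Multiplicative ℤ, ∃ k, φ k ≠ 1 := by
  rcases fold_hom ((PR M).map (evm m))
    (fun s t => gram ((PR M').map (evm m)) (fun _ _ => (0 : ℂ)) (κ s) (κ t))
    ((PR M').map (evm m)) (fun _ _ => (0 : ℂ)) h (gram_classes h)
    (fun n x hn hx => by
      rw [nsmul_eq_mul] at hx
      rcases mul_eq_zero.1 hx with h | h
      · exact absurd (Nat.cast_eq_zero.1 h) hn
      · exact h) hH hex with h1 | h1
  · exact h1
  · set cc : S → S → ℝ[T;T⁻¹] :=
      fun s t => gram (PR M') (fun _ _ => (0 : ℝ[T;T⁻¹])) (κ s) (κ t) with hcc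
    have hfaith : ∀ g : Art M, Cm (PR M) (bsf cc) g = 0 → g = 1 :=
      fun g hg => shff_faithful (PR M) cc (fun g hg => faithful0 hR hg) g hg
    apply li_of_filt (PR M) (bsf cc) (filP S (RingHom.ker (evm m)) unit_nat 1)
      (filP_sep (bsf cc) hfaith (ker_evm_ne m) 1) hH hne
    intro g hg
    rw [mem_KF]
    intro x s w
    by_cases hw : w = 1
    · subst hw
      have h2 := h1 g hg
      rw [nat_augf] at h2
      have h3 := congrFun (congrFun h2 x) s
      rw [Matrix.map_apply, aug_apply] at h3
      have e : 1 - 1 * (1 : FreeMonoid (S × S)).length = 1 := rfl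
      rw [e, pow_one, RingHom.mem_ker]
      exact h3
    · have : 1 ≤ w.length := by
        rcases Nat.eq_zero_or_pos w.length with h0 | h0
        · exact absurd (FreeMonoid.length_eq_zero.1 h0) hw
        · exact h0
      have e : 1 - 1 * w.length = 0 := by omega
      rw [e, pow_zero, Ideal.one_eq_top]
      trivial

/-- the preimage of a locally indicable subgroup under a folding is locally indicable -/
theorem li_comap (hR : RankTwo M) (h : Folds M M' κ m) (T : Subgroup (Art M')) (hT : LI T) :
    LI (T.comap (fold h)) := by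
  intro L hL hne
  by_cases hk : ∃ k : L, fold h ((k : T.comap (fold h)) : Art M) ≠ 1
  · obtain ⟨k, hk⟩ := hk
    refine LI.of_hom (H := T) hT hL (((fold h).subgroupComap T).comp L.subtype)
      ⟨k, fun h => hk ?_⟩
    exact congrArg (fun t : T => (t : Art M')) h
  · push Not at hk
    have h1 : (L.map (T.comap (fold h)).subtype).FG := by
      classical
      obtain ⟨S, hS⟩ := hL
      exact ⟨S.image (T.comap (fold h)).subtype, by
        rw [Finset.coe_image, ← MonoidHom.map_closure, hS]⟩
    have h2 : L.map (T.comap (fold h)).subtype ≠ ⊥ := by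
      intro h0
      apply hne
      rw [Subgroup.map_eq_bot_iff, Subgroup.ker_subtype] at h0
      exact le_bot_iff.1 h0
    obtain ⟨φ, k, hk'⟩ := hom_of_ker hR h h1 h2 (by
      rintro _ ⟨x, hx, rfl⟩
      exact hk ⟨x, hx⟩)
    let e := L.equivMapOfInjective (T.comap (fold h)).subtype
      (T.comap (fold h)).subtype_injective
    refine ⟨φ.comp e.toMonoidHom, e.symm k, ?_⟩
    have : (φ.comp e.toMonoidHom) (e.symm k) = φ k := by
      change φ (e (e.symm k)) = φ k
      rw [MulEquiv.apply_symm_apply]
    rw [this]; exact hk'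

end

/-- the folded graph of a bipartite graph whose labels depend on one side only -/
def starM (k : ℕ) (l : Fin k → ℕ) : CoxeterMatrix (Fin (k + 1)) where
  M := Matrix.of fun i j => if i = j then 1 else
    Fin.cases (Fin.cases 1 (fun j => if l j = 1 then 0 else l j) j)
      (fun i => Fin.cases (if l i = 1 then 0 else l i) (fun _ => 0) j) i
  isSymm := by
    ext i j
    rw [Matrix.transpose_apply, Matrix.of_apply, Matrix.of_apply]
    by_cases h : i = j
    · rw [h]
    · rw [if_neg h, if_neg (Ne.symm h)]
      refine Fin.cases ?_ (fun i => ?_) i <;> refine Fin.cases ?_ (fun j => ?_) j <;> rfl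
  diagonal i := by rw [Matrix.of_apply, if_pos rfl]
  off_diagonal i j h := by
    rw [Matrix.of_apply, if_neg h]
    revert h
    refine Fin.cases ?_ (fun i => ?_) i <;> refine Fin.cases ?_ (fun j => ?_) j
    · intro h; exact absurd rfl h
    · intro _
      simp only [Fin.cases_zero, Fin.cases_succ]
      split_ifs with h1
      · exact zero_ne_one
      · exact h1
    · intro _
      simp only [Fin.cases_zero, Fin.cases_succ]
      split_ifs with h1
      · exact zero_ne_one
      · exact h1
    · intro _
      simp only [Fin.cases_succ]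
      exact zero_ne_one

theorem starM_succ_zero (k : ℕ) (l : Fin k → ℕ) (i : Fin k) :
    starM k l i.succ 0 = if l i = 1 then 0 else l i := by
  change (if i.succ = 0 then 1 else _) = _
  rw [if_neg (Fin.succ_ne_zero i)]
  rfl

theorem starM_succ_succ (k : ℕ) (l : Fin k → ℕ) (i j : Fin k) (h : i ≠ j) :
    starM k l i.succ j.succ = 0 := by
  change (if i.succ = j.succ then 1 else _) = _
  rw [if_neg (fun e => h (Fin.succ_injective k e))]
  rfl

theorem starM_forest (k : ℕ) (l : Fin k → ℕ) : Forest (starM k l) := by
  have key : ∀ i j : Fin (k + 1), j < i → starM k l i j ≠ 0 → j = 0 := by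
    intro i j
    refine Fin.cases ?_ (fun i => ?_) i
    · intro h; exact absurd h (Fin.not_lt_zero j)
    · refine Fin.cases ?_ (fun j => ?_) j
      · intro _ _; rfl
      · intro h h1
        exact absurd (starM_succ_succ k l i j (fun e => by rw [e] at h; exact lt_irrefl _ h)) h1
  intro i j j' h1 h2 h3 h4
  rw [key i j h1 h3, key i j' h2 h4]

end Pool.Agent.L0h7.FO
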